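import Pool.Agent.Y167.Dom

/-!
# Invariants of a finite group in a cone with a rational polyhedral fundamental domain
-/

set_option autoImplicit false

namespace Pool.Agent.K3h69.KQ

open Pool.Agent.Y167 Finset

variable {W : Type*} [AddCommGroup W] [Module ℝ W]
  {L : AddSubgroup W} {Nf : Set W} {ξ₀ : W →ₗ[ℝ] ℝ} {y₀ : W} {Y : Finset W}

theorem fin_int (D : CData L Nf ξ₀ y₀ Y) (𝒢 : Subgroup (W ≃ₗ[ℝ] W))
    (hL : ∀ g ∈ 𝒢, ∀ x ∈ L, g x ∈ L) (hN : ∀ g ∈ 𝒢, ∀ x ∈ Nf, g x ∈ Nf) {y : W}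
    (hy : ∃ t : ℝ, 0 < t ∧ y - t • y₀ ∈ Nf) (M : ℝ) :
    {g : W ≃ₗ[ℝ] W | g ∈ 𝒢 ∧ ξ₀ (g y) ≤ M}.Finite := by
  obtain ⟨t, ht, hty⟩ := hy
  choose! K hK using D.y_int
  refine (D.finite_small 𝒢 hL hN (∑ y ∈ Y, K y * (|M| / t))).subset ?_
  rintro g ⟨hg, hgM⟩
  refine ⟨hg, fun y' hy' => ?_⟩
  have h1 := D.xi_nonneg (hN g hg _ hty)
  rw [map_sub, map_sub, map_smul, map_smul, smul_eq_mul] at h1
  have h2 := D.xi_nonneg (hN g hg _ (hK y').2)
  rw [map_sub, map_sub, map_smul, map_smul, smul_eq_mul] at h2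
  have h3 : ξ₀ (g y₀) ≤ |M| / t := by
    rw [le_div_iff₀ ht]
    have := le_abs_self M
    linarith
  have h4 : K y' * ξ₀ (g y₀) ≤ K y' * (|M| / t) := mul_le_mul_of_nonneg_left h3 (hK y').1.le
  have h5 : ξ₀ (g y') ≤ K y' * (|M| / t) := by linarith
  refine h5.trans (Finset.single_le_sum (f := fun y => K y * (|M| / t)) ?_ hy')
  intro y _
  have := (hK y).1
  positivity

theorem fin_stab (D : CData L Nf ξ₀ y₀ Y) (𝒢 : Subgroup (W ≃ₗ[ℝ] W))
    (hL : ∀ g ∈ 𝒢, ∀ x ∈ L, g x ∈ L) (hN : ∀ g ∈ 𝒢, ∀ x ∈ Nf, g x ∈ Nf)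
    (F : Finset W) (hF : ∀ a ∈ F, a ∈ L ∧ a ∈ Nf) :
    {k : W ≃ₗ[ℝ] W | k ∈ 𝒢 ∧ ∃ z, z ∈ cone F ∧ (∃ t : ℝ, 0 < t ∧ z - t • y₀ ∈ Nf) ∧
      k z = z}.Finite := by
  classical
  obtain ⟨T, hT𝒢, hT⟩ := D.exists_dickson 𝒢 hL hN D.xi_int (c := 1) one_pos
    (fun x _ => by rw [one_mul]) F hF
  have hTne : T.Nonempty := by
    obtain ⟨t, ht, -⟩ := hT 1 𝒢.one_mem
    exact ⟨t, ht⟩
  let yA : Finset W → W := fun A => ∑ a ∈ A, a
  let B : Finset W → Set (W ≃ₗ[ℝ] W) := fun A =>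
    {g | g ∈ 𝒢 ∧ ξ₀ (g (yA A)) ≤ ∑ t ∈ T, ξ₀ (t (yA A))}
  let Ps : Finset (Finset W) := F.powerset.filter fun A => ∃ t : ℝ, 0 < t ∧ yA A - t • y₀ ∈ Nf
  have hB : ∀ A ∈ Ps, (B A).Finite := fun A hA =>
    fin_int D 𝒢 hL hN (Finset.mem_filter.1 hA).2 _
  have hfin : (⋃ t ∈ T, ⋃ A ∈ Ps, (fun g : W ≃ₗ[ℝ] W => t⁻¹ * g) '' B A).Finite :=
    Set.Finite.biUnion T.finite_toSet fun t _ =>
      Set.Finite.biUnion Ps.finite_toSet fun A hA => (hB A hA).image _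
  refine hfin.subset ?_
  rintro k ⟨hk, z, hz, ⟨s, hs, hsz⟩, hkz⟩
  obtain ⟨t, ht, hmin⟩ := Finset.exists_min_image T (fun t => ξ₀ (t z)) hTne
  obtain ⟨t', ht', hle⟩ := hT (t * k) (𝒢.mul_mem (hT𝒢 t ht) hk)
  obtain ⟨c, hc, hzc⟩ := hz
  let A : Finset W := F.filter fun a => 0 < c a
  have hAF : A ⊆ F := Finset.filter_subset _ _
  have hterm : ∀ a ∈ A, ξ₀ ((t * k) a) ≤ ξ₀ (t' a) := by
    intro a ha
    have h1 : ∑ a ∈ F, c a * (ξ₀ ((t * k) a) - ξ₀ (t' a)) = ξ₀ ((t * k) z) - ξ₀ (t' z) := by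
      rw [hzc]
      simp only [map_sum, map_smul, smul_eq_mul]
      rw [← Finset.sum_sub_distrib]
      exact Finset.sum_congr rfl fun a _ => by ring
    have h2 : (t * k) z = t z := by
      show t (k z) = t z
      rw [hkz]
    have h3 : ∑ a ∈ F, c a * (ξ₀ ((t * k) a) - ξ₀ (t' a)) ≤ 0 := by
      rw [h1, h2]
      have := hmin t' ht'
      linarith
    have h4 : c a * (ξ₀ ((t * k) a) - ξ₀ (t' a)) ≤ 0 := by
      refine le_trans ?_ h3
      exact Finset.single_le_sum (f := fun a => c a * (ξ₀ ((t * k) a) - ξ₀ (t' a)))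
        (fun b hb => mul_nonneg (hc b) (sub_nonneg.2 (hle b hb))) (hAF ha)
    have h5 : 0 < c a := (Finset.mem_filter.1 ha).2
    by_contra hcon
    push Not at hcon
    have : 0 < c a * (ξ₀ ((t * k) a) - ξ₀ (t' a)) := mul_pos h5 (sub_pos.2 hcon)
    linarith
  have hA : A ∈ Ps := by
    refine Finset.mem_filter.2 ⟨Finset.mem_powerset.2 hAF, ?_⟩
    set C : ℝ := 1 + ∑ a ∈ F, c a with hC
    have hC0 : 0 < C := by
      have : 0 ≤ ∑ a ∈ F, c a := Finset.sum_nonneg fun a _ => hc a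
      linarith
    have h1 : C • yA A - z = ∑ a ∈ F, (if 0 < c a then C - c a else 0) • a := by
      have e1 : yA A = ∑ a ∈ F, (if 0 < c a then (1 : ℝ) else 0) • a := by
        show ∑ a ∈ F.filter _, a = _
        rw [Finset.sum_filter]
        refine Finset.sum_congr rfl fun a _ => ?_
        split_ifs <;> simp
      conv_lhs => rw [e1, hzc]
      rw [Finset.smul_sum, ← Finset.sum_sub_distrib]
      refine Finset.sum_congr rfl fun a _ => ?_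
      split_ifs with h
      · rw [one_smul, sub_smul]
      · have : c a = 0 := le_antisymm (not_lt.1 h) (hc a)
        rw [this]
        simp
    have h2 : C • yA A - z ∈ Nf := by
      refine D.cone_Nf hF ⟨fun a => if 0 < c a then |C - c a| else 0, fun a => ?_, ?_⟩
      · dsimp only
        split_ifs
        · exact abs_nonneg _
        · exact le_rfl
      · rw [h1]
        refine Finset.sum_congr rfl fun a ha => ?_
        dsimp only
        split_ifs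
        · have : c a ≤ ∑ a ∈ F, c a := Finset.single_le_sum (fun a _ => hc a) ha
          rw [abs_of_nonneg (by linarith)]
        · rfl
    refine ⟨C⁻¹ * s, by positivity, ?_⟩
    have h3 := D.smul C⁻¹ (by positivity) _ (D.add _ h2 _ hsz)
    have h4 : C⁻¹ • (C • yA A - z + (z - s • y₀)) = yA A - (C⁻¹ * s) • y₀ := by
      rw [sub_add_sub_cancel, smul_sub, smul_smul, inv_mul_cancel₀ hC0.ne', one_smul, smul_smul]
    rwa [h4] at h3
  simp only [Set.mem_iUnion]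
  refine ⟨t, ht, A, hA, t * k, ⟨𝒢.mul_mem (hT𝒢 t ht) hk, ?_⟩, inv_mul_cancel_left t k⟩
  have h1 : ξ₀ ((t * k) (yA A)) ≤ ξ₀ (t' (yA A)) := by
    show ξ₀ ((t * k) (∑ a ∈ A, a)) ≤ ξ₀ (t' (∑ a ∈ A, a))
    rw [map_sum, map_sum, map_sum, map_sum]
    exact Finset.sum_le_sum hterm
  have hyN : yA A ∈ Nf := by
    refine D.cone_Nf hF ⟨fun a => if 0 < c a then (1 : ℝ) else 0, fun a => ?_, ?_⟩
    · dsimp only
      split_ifs <;> norm_num
    · show ∑ a ∈ F.filter _, a = _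
      rw [Finset.sum_filter]
      refine Finset.sum_congr rfl fun a _ => ?_
      dsimp only
      split_ifs <;> simp
  exact h1.trans (Finset.single_le_sum (f := fun t : W ≃ₗ[ℝ] W => ξ₀ (t (yA A)))
    (fun t ht => D.xi_nonneg (hN t (hT𝒢 t ht) _ hyN)) ht')

end Pool.Agent.K3h69.KQ
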