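import Pool.Agent.K3h69.KQ.Grp

/-!
# The cone conjecture for the quotients of the blow-ups
-/

set_option autoImplicit false

namespace Pool.Agent.K3h69.KQ

open Filter Topology
open Pool.Agent.R895 hiding RC_of_lt RC_zero
open Pool.Agent.K3h69.KB
open Pool.Agent.Y167 (CData cone AffGrp Pol Cp cone_ind cone_add cone_smul cone_sum cone_le
  mem_cone_self mem_cone_of_sum zero_mem_cone cone_cut cone_image cone_mono)
open Pool.Agent.Y167.CC (LinGrp Preserves IsFundDomain)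

/-- From a cone to a convex hull. -/
theorem cone_hull {W : Type*} [AddCommGroup W] [Module ℝ W] {Q : Set W} {T : Finset W}
    (hT : ∀ a ∈ T, ∀ N : ℕ, (N : ℝ) • a ∈ Q) (h0 : (0 : W) ∈ Q) {x : W} (hx : x ∈ cone T) :
    x ∈ convexHull ℝ Q := by
  classical
  obtain ⟨c, hc, hxT⟩ := hx
  obtain ⟨N, hN⟩ := exists_nat_gt (∑ a ∈ T, c a)
  have h0' : 0 ≤ ∑ a ∈ T, c a := Finset.sum_nonneg fun a _ => hc a
  have hNr : (0 : ℝ) < N := lt_of_le_of_lt h0' hN
  have hconv := convex_convexHull ℝ Q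
  have h2 : x = (1 - (∑ a ∈ T, c a) / N) • (0 : W) + ∑ a ∈ T, (c a / N) • ((N : ℝ) • a) := by
    rw [smul_zero, zero_add, hxT]
    refine Finset.sum_congr rfl fun a _ => ?_
    rw [smul_smul, div_mul_cancel₀ _ hNr.ne']
  have h3 : ∑ o : Option T, (Option.elim o (1 - (∑ a ∈ T, c a) / N) fun a => c a / N) •
      (Option.elim o (0 : W) fun a => (N : ℝ) • (a : W)) = x := by
    rw [Fintype.sum_option, h2]
    congr 1
    exact Finset.sum_coe_sort T (fun a => (c a / N) • ((N : ℝ) • a))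
  rw [← h3]
  refine hconv.sum_mem (fun o _ => ?_) ?_ (fun o _ => ?_)
  · cases o with
    | none =>
      change 0 ≤ 1 - (∑ a ∈ T, c a) / N
      have := (div_lt_one hNr).2 hN
      linarith
    | some a =>
      change 0 ≤ c a / N
      exact div_nonneg (hc _) hNr.le
  · rw [Fintype.sum_option]
    change 1 - (∑ a ∈ T, c a) / N + ∑ a : T, c a / N = 1
    rw [Finset.sum_coe_sort T (fun a => c a / (N : ℝ)), ← Finset.sum_div]
    ring
  · cases o with
    | none => exact subset_convexHull ℝ _ h0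
    | some a => exact subset_convexHull ℝ _ (hT a a.2 N)

variable {ι : Type*} [Fintype ι] {r m : ℕ} {ρ : Fin r → ι} {j : (Fin r → ℂ) →ₗ[ℂ] (ι → ℂ)}

theorem coreQ (B : Bricks) [Nonempty ι] (hj : IsExt ρ j) (hρ : Function.Injective ρ) (hr0 : 2 ≤ r)
    (hr : r ≤ 6) (Φ : Subgroup ((Fin r → ℂ) ≃ₗ[ℂ] (Fin r → ℂ))) [Finite Φ]
    (hΦ : ∀ f ∈ Φ, ∀ v, Lat v → Lat (f v)) (W' : Submodule ℝ (N1 (kum ι m) j))
    (hW' : ∀ x, x ∈ W' ↔ ∀ f ∈ Φ, ∀ v w, form x (f v) (f w) = form x v w)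
    (Λ : AddSubgroup W')
    (hΛ : ∀ x ∈ Λ, (x : N1 (kum ι m) j) ∈ AddSubgroup.closure (integral (kum ι m) j))
    (k : ℕ) (hk : 0 < k)
    (hkΛ : ∀ x : W', (x : N1 (kum ι m) j) ∈ AddSubgroup.closure (integral (kum ι m) j) →
      (k : ℝ) • x ∈ Λ) :
    ({x : W' | (x : N1 (kum ι m) j) ∈ nefCone (kum ι m) j ∩ effCone (kum ι m) j} =
      convexHull ℝ {x : W' | (x : N1 (kum ι m) j) ∈ nefCone (kum ι m) j ∧
        ∃ N : ℕ, 0 < N ∧ (N : ℝ) • x ∈ Λ}) ∧
    ∀ 𝒜 : Subgroup (W' ≃ₗ[ℝ] W'), (∀ g ∈ 𝒜, ∀ x ∈ Λ, g x ∈ Λ) →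
    (∀ g ∈ 𝒜, ∀ x : W', (x : N1 (kum ι m) j) ∈ nefCone (kum ι m) j ∩ effCone (kum ι m) j →
      (g x : N1 (kum ι m) j) ∈ nefCone (kum ι m) j ∩ effCone (kum ι m) j) →
    (∀ (a : W' ≃ₗ[ℝ] W') (u : (Fin r → ℂ) ≃ₗ[ℂ] (Fin r → ℂ)), (∀ v, Lat v → Lat (u v)) →
      (∀ v, Lat v → Lat (u.symm v)) → (∀ f ∈ Φ, u * f = f * u) →
      (∀ (x : W') (v w), form (a x : N1 (kum ι m) j) v w =
        form (x : N1 (kum ι m) j) (u v) (u w)) →
      (∀ x : W', coef (a x : N1 (kum ι m) j) = coef (x : N1 (kum ι m) j)) → a ∈ 𝒜) →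
    ∃ S : Finset W', ↑S ⊆ (Λ : Set W') ∧
      cone S ⊆ {x : W' | (x : N1 (kum ι m) j) ∈ nefCone (kum ι m) j ∩ effCone (kum ι m) j} ∧
      IsFundDomain 𝒜 {x : W' | (x : N1 (kum ι m) j) ∈ nefCone (kum ι m) j ∩ effCone (kum ι m) j}
        (cone S) := by
  classical
  have hr' : 0 < r := by omega
  obtain ⟨y₀, hy0, hy1, hy2⟩ := exists_y₀ m hj hρ
  obtain ⟨Y, D⟩ := exists_cdata hj hr' hy0 hy1 hy2
  obtain ⟨F₁, hF₁, hcov⟩ := covering m hj hρ
  have hpd : ∀ (t : ℝ) (x : N1 (kum ι m) j), 0 < t → x - t • y₀ ∈ Nf m j →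
      x ∈ Nf m j ∧ ∃ t : ℝ, 0 < t ∧ ∀ v, t * (std v v).re ≤ (frm x v v).re := by
    intro t x ht hx
    have h4 : x = (x - t • y₀) + t • y₀ := by abel
    refine ⟨?_, t * 12, by positivity, fun v => ?_⟩
    · rw [h4]
      exact Nf_add hx (Nf_smul ht.le D.y_N)
    · rw [h4, frm_add, Complex.add_re, frm_smul, Complex.re_ofReal_mul, hy1, re_twelve]
      have := hx.1 v
      linarith
  have hfin := sub1_finite (ι := ι) (m := m) (j := j) Φ
  let hft : Fintype (sub1 Φ ι m j) := Fintype.ofFinite _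
  have hfix : ∀ x, x ∈ W' ↔ ∀ h ∈ sub1 Φ ι m j, act1 ι m j h x = x := fun x =>
    (hW' x).trans (fix_iff Φ hj hρ hΦ x)
  have hgL : ∀ g : pbGrp ι m j, ∀ x ∈ AddSubgroup.closure (integral (kum ι m) j),
      act1 ι m j g x ∈ AddSubgroup.closure (integral (kum ι m) j) := by
    intro g x hx
    have h1 : IsPb g.1.1 g.1.2⁻¹ := g.2
    exact closure_map (fun x hx => h1.int x hx) hx
  have hgN : ∀ g : pbGrp ι m j, ∀ x ∈ Nf m j, act1 ι m j g x ∈ Nf m j := by
    intro g x hx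
    have h1 : IsPb g.1.1 g.1.2⁻¹ := g.2
    exact h1.nf hx
  -- the averaging map
  obtain ⟨A, hA⟩ : ∃ A : N1 (kum ι m) j →ₗ[ℝ] W', ∀ x, (A x : N1 (kum ι m) j) =
      ∑ h : sub1 Φ ι m j, act1 ι m j h x := by
    refine ⟨LinearMap.codRestrict W' (∑ h : sub1 Φ ι m j,
      ((act1 ι m j h : N1 (kum ι m) j ≃ₗ[ℝ] N1 (kum ι m) j) :
        N1 (kum ι m) j →ₗ[ℝ] N1 (kum ι m) j)) ?_, fun x => ?_⟩
    · intro x
      rw [hfix]
      intro h hh
      rw [LinearMap.sum_apply, map_sum]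
      refine Fintype.sum_equiv (Equiv.mulLeft ⟨h, hh⟩) _ _ fun h' => ?_
      show act1 ι m j h (act1 ι m j h' x) = act1 ι m j (h * h') x
      rw [map_mul]
      rfl
    · rw [LinearMap.codRestrict_apply, LinearMap.sum_apply]
      rfl
  set N : ℝ := (Fintype.card (sub1 Φ ι m j) : ℝ) with hN
  have hN0 : 0 < N := by
    rw [hN]
    exact_mod_cast Fintype.card_pos
  have hA1 : ∀ x : W', A (x : N1 (kum ι m) j) = N • x := by
    intro x
    apply Subtype.ext
    rw [hA]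
    have : ∀ h : sub1 Φ ι m j, act1 ι m j h (x : N1 (kum ι m) j) = x := fun h =>
      (hfix _).1 x.2 h h.2
    simp only [this]
    rw [Finset.sum_const, Finset.card_univ, ← Nat.cast_smul_eq_nsmul ℝ]
    rfl
  have hAL : ∀ x ∈ AddSubgroup.closure (integral (kum ι m) j),
      (A x : N1 (kum ι m) j) ∈ AddSubgroup.closure (integral (kum ι m) j) := by
    intro x hx
    rw [hA]
    exact AddSubgroup.sum_mem _ fun h _ => hgL _ _ hx
  have hAN : ∀ x ∈ Nf m j, (A x : N1 (kum ι m) j) ∈ Nf m j := by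
    intro x hx
    rw [hA]
    exact Finset.sum_induction _ (· ∈ Nf m j) (fun x y hx hy => D.add x hx y hy) Nf_zero
      fun h _ => hgN _ _ hx
  have hkr : (0 : ℝ) < k := by exact_mod_cast hk
  have D' := cdata_fix D W' A N hN0 hA1 hAL hAN Λ hΛ k hk hkΛ
  -- the two cones
  have hCp : ∀ x : W', x ∈ Cp Λ {x : W' | (x : N1 (kum ι m) j) ∈ Nf m j} ↔
      (x : N1 (kum ι m) j) ∈ nefCone (kum ι m) j ∩ effCone (kum ι m) j := by
    intro x
    rw [← mem_Cp_iff6 B hj hρ hr0 hr]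
    constructor
    · rintro ⟨S, hS, hx⟩
      refine ⟨S.image W'.subtype, ?_, cone_image W'.subtype hx⟩
      intro a ha
      obtain ⟨b, hb, rfl⟩ := Finset.mem_image.1 ha
      exact ⟨hΛ b (hS b hb).1, (hS b hb).2⟩
    · rintro ⟨S, hS, hx⟩
      refine ⟨S.image ((k : ℝ) • A), ?_, ?_⟩
      · intro a ha
        obtain ⟨b, hb, rfl⟩ := Finset.mem_image.1 ha
        refine ⟨hkΛ _ (hAL _ (hS b hb).1), ?_⟩
        exact D.smul _ hkr.le _ (hAN _ (hS b hb).2)
      · have h1 := cone_image ((k : ℝ) • A) hx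
        have h2 : x = (k * N)⁻¹ • ((k : ℝ) • A) (x : N1 (kum ι m) j) := by
          rw [LinearMap.smul_apply, hA1, smul_smul, smul_smul, mul_assoc,
            inv_mul_cancel₀ (by positivity), one_smul]
        rw [h2]
        exact cone_smul h1 (by positivity)
  refine ⟨?_, ?_⟩
  · apply Set.Subset.antisymm
    · intro x hx
      obtain ⟨T, hT, hxT⟩ := (hCp x).2 hx
      refine cone_hull (fun a ha n => ?_) ?_ hxT
      · have h1 : (n : ℝ) • a ∈ Λ := by
          have := Λ.nsmul_mem (hT a ha).1 n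
          rwa [← Nat.cast_smul_eq_nsmul ℝ] at this
        exact ⟨nef_of_int6 B hj hρ hr (hΛ _ h1) (D'.smul _ (Nat.cast_nonneg n) _ (hT a ha).2), 1,
          one_pos, by rwa [Nat.cast_one, one_smul]⟩
      · refine ⟨nef_of_int6 B hj hρ hr (AddSubgroup.zero_mem _) Nf_zero, 1, one_pos, ?_⟩
        rw [smul_zero]
        exact Λ.zero_mem
    · apply convexHull_min
      · rintro x ⟨hx, n, hn, h⟩
        have hnr : (0 : ℝ) < n := by exact_mod_cast hn
        refine ⟨hx, ?_⟩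
        have h0 := nefCone_le hj hρ hx
        have h1 : (n : ℝ) • (x : N1 (kum ι m) j) ∈ effCone (kum ι m) j :=
          eff_of_int6 B hj hρ hr0 hr (hΛ _ h) (Nf_smul hnr.le h0)
        have h2 := span_smul h1 (inv_nonneg.2 hnr.le)
        rwa [smul_smul, inv_mul_cancel₀ hnr.ne', one_smul] at h2
      · intro x hx y hy s t hs ht _
        exact ⟨nef_add (nef_smul hx.1 hs) (nef_smul hy.1 ht),
          span_add (span_smul hx.2 hs) (span_smul hy.2 ht)⟩
  · intro 𝒜 hA𝒜 h2 h3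
    obtain ⟨F', hF', hcovF⟩ := cov_fix (act1 ι m j) D (act1_ker hy1) hgL hgN F₁ hF₁ (by
      rintro x ⟨t, ht, hx⟩
      obtain ⟨k1, k2⟩ := hpd t x ht hx
      obtain ⟨g, u, hg, hgx⟩ := hcov x k1 k2
      have h1 : ((g, u⁻¹) : _ × _) ∈ pbGrp ι m j := by
        show IsPb g (u⁻¹)⁻¹
        rwa [inv_inv]
      exact ⟨⟨(g, u⁻¹), h1⟩, hgx⟩) (sub1 Φ ι m j) W' hfix A hA
    have hadd : ∀ x : W', (x : N1 (kum ι m) j) ∈ Nf m j → ∀ t : ℝ, 0 < t →
        ((x + t • A y₀ : W') : N1 (kum ι m) j) ∈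
          nefCone (kum ι m) j ∩ effCone (kum ι m) j := by
      intro x hx t ht
      -- `A y₀ - y₀` is nef because one of the summands is `y₀`
      have h4 : (A y₀ : N1 (kum ι m) j) - y₀ ∈ Nf m j := by
        rw [hA, ← Finset.add_sum_erase _ _ (Finset.mem_univ (1 : sub1 Φ ι m j))]
        have h5 : act1 ι m j (1 : sub1 Φ ι m j) y₀ = y₀ := by
          show act1 ι m j 1 y₀ = y₀
          rw [map_one]
          rfl
        rw [h5, add_sub_cancel_left]
        exact Finset.sum_induction _ (· ∈ Nf m j) (fun x y hx hy => D.add x hx y hy) Nf_zero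
          fun h _ => hgN _ _ D.y_N
      have h5 : ((x + t • A y₀ : W') : N1 (kum ι m) j) - t • y₀ ∈ Nf m j := by
        have h6 := Nf_add hx (Nf_smul ht.le h4)
        have h7 : ((x + t • A y₀ : W') : N1 (kum ι m) j) - t • y₀ =
            (x : N1 (kum ι m) j) + t • ((A y₀ : N1 (kum ι m) j) - y₀) := by
          show (x : N1 (kum ι m) j) + t • (A y₀ : N1 (kum ι m) j) - t • y₀ = _
          rw [smul_sub]
          abel
        rwa [h7]
      obtain ⟨k1, k2⟩ := hpd t _ ht h5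
      exact Cp_le6 B hj hρ hr0 hr (Cp_of_pd hj hρ k1 k2)
    have h𝒜N : ∀ g ∈ 𝒜, ∀ x : W', (x : N1 (kum ι m) j) ∈ Nf m j →
        (g x : N1 (kum ι m) j) ∈ Nf m j := by
      intro g hg x hx
      refine mem_closed (y := (g (A y₀) : N1 (kum ι m) j)) isClosed_Nf fun n => ?_
      have h4 := h2 g hg _ (hadd x hx (1 / ((n : ℝ) + 1)) (by positivity))
      rw [map_add, map_smul] at h4
      exact nefCone_le hj hρ h4.1
    obtain ⟨S, hS1, hS2, hS3⟩ := D'.domain 𝒜 hA𝒜 h𝒜N (F'.image fun a => (k : ℝ) • a) (by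
      intro a ha
      obtain ⟨b, hb, rfl⟩ := Finset.mem_image.1 ha
      exact ⟨hkΛ _ (hF' b hb).1, D.smul _ hkr.le _ (hF' b hb).2⟩) (by
      rintro x ⟨t, ht, hx⟩
      have hx1 : ∃ t : ℝ, 0 < t ∧ (x : N1 (kum ι m) j) - t • y₀ ∈ Nf m j := by
        refine ⟨t * k, by positivity, ?_⟩
        have h4 : (A y₀ : N1 (kum ι m) j) - y₀ ∈ Nf m j := by
          rw [hA, ← Finset.add_sum_erase _ _ (Finset.mem_univ (1 : sub1 Φ ι m j))]
          have h5 : act1 ι m j (1 : sub1 Φ ι m j) y₀ = y₀ := by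
            show act1 ι m j 1 y₀ = y₀
            rw [map_one]
            rfl
          rw [h5, add_sub_cancel_left]
          exact Finset.sum_induction _ (· ∈ Nf m j) (fun x y hx hy => D.add x hx y hy) Nf_zero
            fun h _ => hgN _ _ D.y_N
        have hx' : (x : N1 (kum ι m) j) - t • ((k : ℝ) • (A y₀ : N1 (kum ι m) j)) ∈ Nf m j := hx
        have h6 := Nf_add hx' (Nf_smul (t := t * k) (by positivity) h4)
        have h7 : (x : N1 (kum ι m) j) - t • ((k : ℝ) • (A y₀ : N1 (kum ι m) j)) +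
            (t * k) • ((A y₀ : N1 (kum ι m) j) - y₀) = (x : N1 (kum ι m) j) - (t * k) • y₀ := by
          rw [smul_sub, smul_smul]
          abel
        rwa [h7] at h6
      obtain ⟨g, hg1, hg2⟩ := hcovF x hx1
      have hinv : ∀ g' : pbGrp ι m j, (∀ h ∈ sub1 Φ ι m j, g' * h = h * g') → ∀ x ∈ W',
          act1 ι m j g' x ∈ W' := by
        intro g' hg' x hx
        rw [hfix] at hx ⊢
        intro h hh
        have : act1 ι m j h (act1 ι m j g' x) = act1 ι m j (h * g') x := by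
          rw [map_mul]
          rfl
        rw [this, ← hg' h hh, map_mul]
        show act1 ι m j g' (act1 ι m j h x) = _
        rw [hx h hh]
      have hg1' : ∀ h ∈ sub1 Φ ι m j, g⁻¹ * h = h * g⁻¹ := by
        intro h hh
        have := hg1 h hh
        rw [inv_mul_eq_iff_eq_mul, ← mul_assoc, this, mul_inv_cancel_right]
      let a : W' ≃ₗ[ℝ] W' :=
        { toFun := fun x => ⟨act1 ι m j g x, hinv g hg1 _ x.2⟩
          map_add' := fun x y => Subtype.ext (map_add (act1 ι m j g) _ _)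
          map_smul' := fun t x => Subtype.ext (map_smul (act1 ι m j g) t _)
          invFun := fun x => ⟨act1 ι m j g⁻¹ x, hinv g⁻¹ hg1' _ x.2⟩
          left_inv := fun x => Subtype.ext (by
            show act1 ι m j g⁻¹ (act1 ι m j g x) = x
            have : act1 ι m j g⁻¹ (act1 ι m j g x) = (act1 ι m j g⁻¹ * act1 ι m j g) x := rfl
            rw [this, ← map_mul, inv_mul_cancel, map_one]
            rfl)
          right_inv := fun x => Subtype.ext (by
            show act1 ι m j g (act1 ι m j g⁻¹ x) = x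
            have : act1 ι m j g (act1 ι m j g⁻¹ x) = (act1 ι m j g * act1 ι m j g⁻¹) x := rfl
            rw [this, ← map_mul, mul_inv_cancel, map_one]
            rfl) }
      have hgpb : IsPb g.1.1 g.1.2⁻¹ := g.2
      have ha : a ∈ 𝒜 := by
        refine h3 a g.1.2⁻¹ hgpb.lat hgpb.lat' ?_ (fun x v w => hgpb.form x v w)
          fun x => hgpb.coef x
        intro f hf
        obtain ⟨g', hg'⟩ := exists_pb (ι := ι) m hj hρ (hΦ f hf) (hΦ _ (Φ.inv_mem hf))
        have h1 : ((g', f⁻¹) : _ × _) ∈ pbGrp ι m j := by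
          show IsPb g' (f⁻¹)⁻¹
          rwa [inv_inv]
        have h2 := hg1 ⟨(g', f⁻¹), h1⟩ (Φ.inv_mem hf)
        have h4 : g.1.2 * f⁻¹ = f⁻¹ * g.1.2 := congrArg (fun p : pbGrp ι m j => p.1.2) h2
        have h5 : Commute g.1.2 f⁻¹ := h4
        have h6 : Commute g.1.2⁻¹ f := by
          have := h5.inv_inv
          rwa [inv_inv] at this
        exact h6
      refine ⟨a, ha, ?_⟩
      have h8 := hg2 (a x) rfl
      refine cone_le (fun b hb => ?_) h8
      have h9 : b = (k : ℝ)⁻¹ • ((k : ℝ) • b) := by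
        rw [smul_smul, inv_mul_cancel₀ hkr.ne', one_smul]
      rw [h9]
      exact cone_smul (mem_cone_self (Finset.mem_image_of_mem (fun a => (k : ℝ) • a) hb))
        (by positivity))
    refine ⟨S, fun a ha => (hS1 a ha).1, fun x hx => (hCp x).1 ⟨S, hS1, hx⟩, ?_, ?_⟩
    · ext x
      show (x : N1 (kum ι m) j) ∈ nefCone (kum ι m) j ∩ effCone (kum ι m) j ↔ _
      rw [← hCp, hS2, Set.mem_iUnion₂]
      constructor
      · rintro ⟨g, hg, hgx⟩
        exact ⟨g⁻¹, 𝒜.inv_mem hg, g x, hgx, g.symm_apply_apply x⟩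
      · rintro ⟨g, hg, y, hy, rfl⟩
        refine ⟨g⁻¹, 𝒜.inv_mem hg, ?_⟩
        have : (g⁻¹ : W' ≃ₗ[ℝ] W') (g y) = y := g.symm_apply_apply y
        rwa [this]
    · intro g hg hg1
      rw [Set.eq_empty_iff_forall_notMem]
      obtain ⟨φ, hφ0, hφ1, hφ2⟩ := hS3 g hg hg1
      rintro x ⟨hx, y, hy, rfl⟩
      have h4 := hφ2 y hy
      obtain ⟨w, hw⟩ : ∃ w, 0 < φ w := by
        by_contra hcon
        push Not at hcon
        apply hφ0
        ext w
        have e1 := hcon w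
        have e2 := hcon (-w)
        rw [map_neg] at e2
        show φ w = 0
        linarith
      have hcont : Continuous fun t : ℝ => g y - t • w := by fun_prop
      have hmem : ∀ᶠ t : ℝ in 𝓝 0, g y - t • w ∈ interior (cone S) := by
        apply hcont.continuousAt.eventually_mem
        rw [zero_smul, sub_zero]
        exact isOpen_interior.mem_nhds hx
      obtain ⟨ε, hε, hball⟩ := Metric.eventually_nhds_iff.1 hmem
      have h5 := interior_subset (hball (y := ε / 2) (by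
        rw [Real.dist_eq, sub_zero, abs_of_pos (by linarith)]
        linarith))
      have h6 := hφ1 _ h5
      rw [map_sub, map_smul, smul_eq_mul] at h6
      have h7 : 0 < ε / 2 * φ w := by positivity
      linarith

end Pool.Agent.K3h69.KQ
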