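import Pool.Agent.K3h69.KQ.Abs

/-!
# The covering of the invariant part of a cone
-/

set_option autoImplicit false

namespace Pool.Agent.K3h69.KQ

open Pool.Agent.Y167 Finset

variable {W : Type*} [AddCommGroup W] [Module ℝ W]
  {L : AddSubgroup W} {Nf : Set W} {ξ₀ : W →ₗ[ℝ] ℝ} {y₀ : W} {Y : Finset W}

theorem cov_fix {G : Type*} [Group G] (π : G →* (W ≃ₗ[ℝ] W)) (D : CData L Nf ξ₀ y₀ Y)
    (hker : {g | π g = 1}.Finite) (hL : ∀ g, ∀ x ∈ L, π g x ∈ L) (hN : ∀ g, ∀ x ∈ Nf, π g x ∈ Nf)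
    (F : Finset W) (hF : ∀ a ∈ F, a ∈ L ∧ a ∈ Nf)
    (hcov : ∀ x, (∃ t : ℝ, 0 < t ∧ x - t • y₀ ∈ Nf) → ∃ g, π g x ∈ cone F)
    (H : Subgroup G) [Fintype H] (W' : Submodule ℝ W) (hW' : ∀ x, x ∈ W' ↔ ∀ h ∈ H, π h x = x)
    (A : W →ₗ[ℝ] W') (hA : ∀ x, (A x : W) = ∑ h : H, π h x) :
    ∃ F' : Finset W', (∀ a ∈ F', (a : W) ∈ L ∧ (a : W) ∈ Nf) ∧
      ∀ x : W', (∃ t : ℝ, 0 < t ∧ (x : W) - t • y₀ ∈ Nf) →
        ∃ g, (∀ h ∈ H, g * h = h * g) ∧ ∀ y : W', (y : W) = π g x → y ∈ cone F' := by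
  classical
  have hK := fin_stab D π.range (by rintro _ ⟨g, rfl⟩; exact hL g) (by rintro _ ⟨g, rfl⟩; exact hN g)
    F hF
  set K := {k : W ≃ₗ[ℝ] W | k ∈ π.range ∧ ∃ z, z ∈ cone F ∧
    (∃ t : ℝ, 0 < t ∧ z - t • y₀ ∈ Nf) ∧ k z = z} with hKdef
  have hK' : {g : G | π g ∈ K}.Finite := by
    refine Set.Finite.preimage' hK ?_
    rintro _ ⟨⟨g₀, rfl⟩, -⟩
    refine (hker.image fun g => g₀ * g).subset ?_
    intro g hg
    have hg' : π g = π g₀ := hg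
    exact ⟨g₀⁻¹ * g, by rw [Set.mem_ofPred_eq, map_mul, map_inv, hg', inv_mul_cancel],
      mul_inv_cancel_left g₀ g⟩
  have hint : ∀ g x, (∃ t : ℝ, 0 < t ∧ x - t • y₀ ∈ Nf) →
      ∃ t : ℝ, 0 < t ∧ π g x - t • y₀ ∈ Nf := by
    rintro g x ⟨t, ht, hx⟩
    obtain ⟨C, hC, h⟩ := D.y_int (π g⁻¹ y₀)
    have h1 := hN g _ h
    rw [map_sub, map_smul] at h1
    have h2 : π g (π g⁻¹ y₀) = y₀ := by
      have : π g (π g⁻¹ y₀) = (π g * π g⁻¹) y₀ := rfl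
      rw [this, ← map_mul, mul_inv_cancel, map_one]
      rfl
    rw [h2] at h1
    have h3 := hN g _ hx
    rw [map_sub, map_smul] at h3
    refine ⟨t / C, by positivity, ?_⟩
    have h4 := D.add _ h3 _ (D.smul (t / C) (by positivity) _ h1)
    have h5 : π g x - t • π g y₀ + (t / C) • (C • π g y₀ - y₀) = π g x - (t / C) • y₀ := by
      rw [smul_sub, smul_smul, div_mul_cancel₀ _ hC.ne']
      abel
    rwa [h5] at h4
  let Θ : Set (H → G) := {θ | ∃ (g : G) (x : W), (∃ t : ℝ, 0 < t ∧ x - t • y₀ ∈ Nf) ∧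
    (∀ h ∈ H, π h x = x) ∧ π g x ∈ cone F ∧ θ = fun h : H => g * h * g⁻¹}
  have hΘ : Θ.Finite := by
    refine (Set.Finite.pi' (fun _ : H => hK')).subset ?_
    rintro _ ⟨g, x, hx, hfix, hgx, rfl⟩ h
    refine ⟨⟨_, rfl⟩, π g x, hgx, hint g x hx, ?_⟩
    have : π (g * h * g⁻¹) (π g x) = (π (g * h * g⁻¹) * π g) x := rfl
    rw [this, ← map_mul, inv_mul_cancel_right, map_mul]
    show π g (π h x) = _
    rw [hfix h h.2]
  have hch : ∀ θ ∈ Θ, ∃ g : G, θ = fun h : H => g * h * g⁻¹ := by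
    rintro _ ⟨g, x, -, -, -, rfl⟩
    exact ⟨g, rfl⟩
  choose! γ hγ using hch
  refine ⟨hΘ.toFinset.biUnion fun θ => F.image fun a => A (π (γ θ)⁻¹ a), ?_, ?_⟩
  · intro a ha
    obtain ⟨θ, -, h1⟩ := Finset.mem_biUnion.1 ha
    obtain ⟨b, hb, rfl⟩ := Finset.mem_image.1 h1
    rw [hA]
    refine ⟨L.sum_mem fun h _ => hL _ _ (hL _ _ (hF b hb).1), ?_⟩
    refine Finset.sum_induction _ (· ∈ Nf) (fun x y hx hy => D.add x hx y hy) ?_ fun h _ => hN _ _ (hN _ _ (hF b hb).2)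
    have := D.smul 0 le_rfl _ D.y_N
    rwa [zero_smul] at this
  · intro x hx
    obtain ⟨g, hg⟩ := hcov x hx
    have hfix := (hW' x).1 x.2
    set θ : H → G := fun h => g * h * g⁻¹ with hθ
    have hθΘ : θ ∈ Θ := ⟨g, x, hx, hfix, hg, rfl⟩
    have h1 := hγ θ hθΘ
    have hcomm : ∀ h ∈ H, (γ θ)⁻¹ * g * h = h * ((γ θ)⁻¹ * g) := by
      intro h hh
      have h2 : g * h * g⁻¹ = γ θ * h * (γ θ)⁻¹ := congrFun h1 ⟨h, hh⟩
      have h3 : g * h = γ θ * h * (γ θ)⁻¹ * g := by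
        rw [← h2, inv_mul_cancel_right]
      rw [mul_assoc, h3]
      group
    refine ⟨(γ θ)⁻¹ * g, hcomm, fun y hy => ?_⟩
    have hcard : (0 : ℝ) < Fintype.card H := by
      exact_mod_cast Fintype.card_pos
    have hy2 : A (y : W) = (Fintype.card H : ℝ) • y := by
      apply Subtype.ext
      rw [hA]
      have : ∀ h : H, π h (y : W) = y := fun h => (hW' _).1 y.2 h h.2
      simp only [this]
      rw [Finset.sum_const, Finset.card_univ, ← Nat.cast_smul_eq_nsmul ℝ]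
      rfl
    have hy3 : y = (Fintype.card H : ℝ)⁻¹ • A (y : W) := by
      rw [hy2, smul_smul, inv_mul_cancel₀ hcard.ne', one_smul]
    rw [hy3]
    refine cone_smul ?_ (by positivity)
    have h4 : (y : W) = π (γ θ)⁻¹ (π g x) := by
      rw [hy, map_mul]
      rfl
    rw [h4]
    have h5 : (A ∘ₗ ((π (γ θ)⁻¹ : W ≃ₗ[ℝ] W) : W →ₗ[ℝ] W)) (π g x) ∈
        cone (F.image (A ∘ₗ ((π (γ θ)⁻¹ : W ≃ₗ[ℝ] W) : W →ₗ[ℝ] W))) := cone_image _ hg
    refine cone_mono ?_ h5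
    exact Finset.subset_biUnion_of_mem (fun θ => F.image fun a => A (π (γ θ)⁻¹ a))
      (hΘ.mem_toFinset.2 hθΘ)

theorem cdata_fix (D : CData L Nf ξ₀ y₀ Y) (W' : Submodule ℝ W) [DecidableEq W']
    (A : W →ₗ[ℝ] W') (N : ℝ)
    (hN0 : 0 < N) (hA1 : ∀ x : W', A (x : W) = N • x) (hAL : ∀ x ∈ L, (A x : W) ∈ L)
    (hAN : ∀ x ∈ Nf, (A x : W) ∈ Nf) (Λ : AddSubgroup W') (hΛ : ∀ x ∈ Λ, (x : W) ∈ L) (k : ℕ)
    (hk : 0 < k) (hkΛ : ∀ x : W', (x : W) ∈ L → (k : ℝ) • x ∈ Λ) :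
    CData Λ {x : W' | (x : W) ∈ Nf} (ξ₀ ∘ₗ W'.subtype) ((k : ℝ) • A y₀)
      (Y.image fun y => (k : ℝ) • A y) where
  add x hx y hy := D.add _ hx _ hy
  smul t ht x hx := D.smul t ht _ hx
  xi_int x hx := D.xi_int _ (hΛ x hx)
  xi_pos x hx h0 := D.xi_pos _ hx fun h => h0 (Subtype.ext h)
  fin C := by
    refine ((D.fin C).preimage (f := fun x : W' => (x : W))
      Subtype.val_injective.injOn).subset ?_
    rintro x ⟨h1, h2, h3⟩
    exact ⟨hΛ x h1, h2, h3⟩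
  y_L := hkΛ _ (hAL _ D.y_L)
  y_N := D.smul _ (Nat.cast_nonneg k) _ (hAN _ D.y_N)
  y_int x := by
    obtain ⟨C, hC, h⟩ := D.y_int x
    have hkr : (0 : ℝ) < k := by exact_mod_cast hk
    refine ⟨C / (N * k), by positivity, ?_⟩
    have h1 := D.smul N⁻¹ (by positivity) _ (hAN _ h)
    have h2 : (C / (N * k)) • ((k : ℝ) • A y₀) - x = N⁻¹ • A (C • y₀ - (x : W)) := by
      rw [map_sub, map_smul, hA1, smul_sub, smul_smul, smul_smul, smul_smul,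
        inv_mul_cancel₀ hN0.ne', one_smul]
      congr 2
      field_simp
    rw [Set.mem_ofPred_eq, h2]
    exact h1
  dom η := by
    obtain ⟨C, h⟩ := D.dom (η ∘ₗ A)
    refine ⟨C / N, fun x hx => ?_⟩
    have h1 := h _ hx
    rw [LinearMap.comp_apply, hA1, map_smul, smul_eq_mul, abs_mul, abs_of_pos hN0] at h1
    have h2 : (ξ₀ ∘ₗ W'.subtype) x = ξ₀ x := rfl
    rw [h2, div_mul_eq_mul_div, le_div_iff₀ hN0]
    linarith
  sep x hx := by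
    obtain ⟨η, h1, h2⟩ := D.sep (x : W) fun h => hx (Subtype.ext h)
    exact ⟨η ∘ₗ W'.subtype, fun y hy => h1 _ (hΛ y hy), h2⟩
  Y_mem y hy := by
    obtain ⟨z, hz, rfl⟩ := Finset.mem_image.1 hy
    exact ⟨hkΛ _ (hAL _ (D.Y_mem z hz).1), D.smul _ (Nat.cast_nonneg k) _ (hAN _ (D.Y_mem z hz).2)⟩
  Y_span φ h := by
    have hkr : (k : ℝ) ≠ 0 := by exact_mod_cast hk.ne'
    have h1 : W'.subtype ∘ₗ φ ∘ₗ A = 0 := by
      apply D.Y_span
      intro y hy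
      have h2 := h _ (Finset.mem_image_of_mem _ hy)
      rw [map_smul] at h2
      have h3 := (smul_eq_zero.1 h2).resolve_left hkr
      show ((φ (A y) : W') : W) = 0
      rw [h3]
      rfl
    ext x
    have h2 : (W'.subtype ∘ₗ φ ∘ₗ A) (x : W) = 0 := by rw [h1]; rfl
    have h3 : ((φ (A (x : W)) : W') : W) = 0 := h2
    rw [hA1, map_smul] at h3
    have h4 : N • ((φ x : W') : W) = 0 := h3
    exact (smul_eq_zero.1 h4).resolve_left hN0.ne'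

end Pool.Agent.K3h69.KQ
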