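import Pool.Agent.K3h69.KQ.Fix
import Pool.Agent.K3h69.KB.Port

/-!
# The group of the linear automorphisms, acting on the classes
-/

set_option autoImplicit false

namespace Pool.Agent.K3h69.KQ

open Pool.Agent.R895 hiding RC_of_lt RC_zero
open Pool.Agent.K3h69.KB
open Pool.Agent.Y167 (CData cone AffGrp Pol Cp cone_ind cone_add cone_smul cone_sum cone_le
  mem_cone_self mem_cone_of_sum zero_mem_cone cone_cut cone_image cone_mono)
open Pool.Agent.Y167.CC (LinGrp Preserves IsFundDomain)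

variable {ι : Type*} [Fintype ι] {r m : ℕ} {ρ : Fin r → ι} {j : (Fin r → ℂ) →ₗ[ℂ] (ι → ℂ)}

/-- The pairs of a linear automorphism `u` and of the pullback by its inverse. -/
def pbGrp (ι : Type*) [Fintype ι] (m : ℕ) (j : (Fin r → ℂ) →ₗ[ℂ] (ι → ℂ)) :
    Subgroup ((N1 (kum ι m) j ≃ₗ[ℝ] N1 (kum ι m) j) × ((Fin r → ℂ) ≃ₗ[ℂ] (Fin r → ℂ))) where
  carrier := {p | IsPb p.1 p.2⁻¹}
  one_mem' := ⟨fun v h => h, fun v h => h, fun x v w => rfl, fun x => rfl, fun x v w => rfl,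
    fun x => rfl, fun x h => h, fun x h => h⟩
  mul_mem' := by
    intro p q hp hq
    have hp : IsPb p.1 p.2⁻¹ := hp
    have hq : IsPb q.1 q.2⁻¹ := hq
    show IsPb (p.1 * q.1) (p.2 * q.2)⁻¹
    rw [mul_inv_rev]
    refine ⟨fun v h => hq.lat _ (hp.lat _ h), fun v h => hp.lat' _ (hq.lat' _ h),
      fun x v w => ?_, fun x => ?_, fun x v w => ?_, fun x => ?_,
      fun x h => hp.int _ (hq.int _ h), fun x h => hq.int' _ (hp.int' _ h)⟩
    · exact (hp.form (q.1 x) v w).trans (hq.form x _ _)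
    · exact (hp.coef (q.1 x)).trans (hq.coef x)
    · exact (hq.form' (p.1.symm x) v w).trans (hp.form' x _ _)
    · exact (hq.coef' (p.1.symm x)).trans (hp.coef' x)
  inv_mem' := by
    intro p hp
    have hp : IsPb p.1 p.2⁻¹ := hp
    exact ⟨hp.lat', hp.lat, hp.form', hp.coef', hp.form, hp.coef, hp.int', hp.int⟩

/-- The action on the classes. -/
noncomputable def act1 (ι : Type*) [Fintype ι] (m : ℕ) (j : (Fin r → ℂ) →ₗ[ℂ] (ι → ℂ)) :
    pbGrp ι m j →* (N1 (kum ι m) j ≃ₗ[ℝ] N1 (kum ι m) j) :=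
  (MonoidHom.fst _ _).comp (pbGrp ι m j).subtype

theorem act1_ker {y₀ : N1 (kum ι m) j}
    (hy1 : ∀ u w, frm y₀ u w = 12 * std u w) : {g | act1 ι m j g = 1}.Finite := by
  classical
  have hfin : {u : Fin r → Fin r → ℂ | ∀ a, u a ∈ {x : Fin r → ℂ | ∀ b, x b ∈
      {z : ℂ | IsEis z ∧ Complex.normSq z ≤ 1}}}.Finite :=
    Set.Finite.pi' fun _ => Set.Finite.pi' fun _ => finite_eis 1
  let f : pbGrp ι m j → (Fin r → Fin r → ℂ) := fun g a => (g.1.2⁻¹) (Pi.single a 1)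
  refine Set.Finite.of_finite_image (f := f) (hfin.subset ?_) ?_
  · rintro _ ⟨g, hg, rfl⟩ a b
    have hg2 : IsPb g.1.1 g.1.2⁻¹ := g.2
    have hg1 : g.1.1 = 1 := hg
    have hsingle : Lat (Pi.single a (1 : ℂ) : Fin r → ℂ) := by
      intro c
      by_cases h : c = a
      · subst h
        rw [Pi.single_eq_same]
        exact IsEis.one
      · rw [Pi.single_eq_of_ne h]
        exact IsEis.zero
    refine ⟨hg2.lat _ hsingle b, ?_⟩
    have h1 := hg2.form y₀ (Pi.single a 1) (Pi.single a 1)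
    rw [hg1] at h1
    have h2 : frm y₀ (Pi.single a 1) (Pi.single a 1) =
        frm y₀ (g.1.2⁻¹ (Pi.single a 1)) (g.1.2⁻¹ (Pi.single a 1)) := by
      unfold frm
      rw [← h1]
      rfl
    rw [hy1, hy1] at h2
    have h3 : std (Pi.single a (1 : ℂ) : Fin r → ℂ) (Pi.single a 1) =
        std (g.1.2⁻¹ (Pi.single a 1)) (g.1.2⁻¹ (Pi.single a 1)) :=
      mul_left_cancel₀ (by norm_num) h2
    refine (normSq_le_std _ b).trans ?_
    show (std (g.1.2⁻¹ (Pi.single a 1)) (g.1.2⁻¹ (Pi.single a 1))).re ≤ 1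
    rw [← h3, std_re]
    rw [Finset.sum_eq_single a]
    · simp
    · intro b _ hb
      rw [Pi.single_eq_of_ne hb]
      simp
    · intro h
      exact absurd (Finset.mem_univ _) h
  · rintro g hg g' hg' h
    have hg1 : g.1.1 = 1 := hg
    have hg1' : g'.1.1 = 1 := hg'
    apply Subtype.ext
    apply Prod.ext
    · rw [hg1, hg1']
    · have h1 : (g.1.2⁻¹ : (Fin r → ℂ) ≃ₗ[ℂ] (Fin r → ℂ)) = g'.1.2⁻¹ := by
        apply LinearEquiv.toLinearMap_injective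
        apply LinearMap.pi_ext'
        intro a
        ext
        have := congrFun h a
        exact congrFun this _
      exact inv_injective h1

variable (Φ : Subgroup ((Fin r → ℂ) ≃ₗ[ℂ] (Fin r → ℂ)))

/-- The elements given by the elements of `Φ`. -/
noncomputable def sub1 (ι : Type*) [Fintype ι] (m : ℕ) (j : (Fin r → ℂ) →ₗ[ℂ] (ι → ℂ)) : Subgroup (pbGrp ι m j) :=
  Φ.comap ((MonoidHom.snd _ _).comp (pbGrp ι m j).subtype)

theorem pb_unique {g g' : N1 (kum ι m) j ≃ₗ[ℝ] N1 (kum ι m) j} {u : (Fin r → ℂ) ≃ₗ[ℂ] (Fin r → ℂ)}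
    (h : IsPb g u) (h' : IsPb g' u) : g = g' := by
  ext x
  apply N1_ext
  · funext v w
    rw [h.form, h'.form]
  · rw [h.coef, h'.coef]

theorem sub1_finite [Finite Φ] : Finite (sub1 Φ ι m j) := by
  refine Finite.of_injective (β := Φ) (fun g => ⟨g.1.1.2, g.2⟩) ?_
  intro g g' h
  have h1 : g.1.1.2 = g'.1.1.2 := congrArg Subtype.val h
  apply Subtype.ext
  apply Subtype.ext
  apply Prod.ext _ h1
  have h2 : IsPb g.1.1.1 g.1.1.2⁻¹ := g.1.2
  have h3 : IsPb g'.1.1.1 g'.1.1.2⁻¹ := g'.1.2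
  rw [← h1] at h3
  exact pb_unique h2 h3

theorem exists_pb (m : ℕ) (hj : IsExt ρ j) (hρ : Function.Injective ρ)
    {u : (Fin r → ℂ) ≃ₗ[ℂ] (Fin r → ℂ)} (hu : ∀ v, Lat v → Lat (u v))
    (hu' : ∀ v, Lat v → Lat (u.symm v)) : ∃ g : N1 (kum ι m) j ≃ₗ[ℝ] N1 (kum ι m) j, IsPb g u := by
  obtain ⟨g, g1, g2, g3, g4, g5, g6⟩ := exists_pull (u := u) m hj hρ hu hu'
  exact ⟨g, hu, hu', g1, g2, g3, g4, g5, g6⟩

theorem fix_iff (hj : IsExt ρ j) (hρ : Function.Injective ρ)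
    (hΦ : ∀ f ∈ Φ, ∀ v, Lat v → Lat (f v)) (x : N1 (kum ι m) j) :
    (∀ f ∈ Φ, ∀ v w, form x (f v) (f w) = form x v w) ↔
      ∀ h ∈ sub1 Φ ι m j, act1 ι m j h x = x := by
  constructor
  · intro hx h hh
    have h1 : IsPb h.1.1 h.1.2⁻¹ := h.2
    have h2 : h.1.2⁻¹ ∈ Φ := Φ.inv_mem hh
    apply N1_ext
    · funext v w
      exact (h1.form x v w).trans (hx _ h2 v w)
    · exact h1.coef x
  · intro hx f hf v w
    obtain ⟨g, hg⟩ := exists_pb (ι := ι) m hj hρ (hΦ f hf) (hΦ _ (Φ.inv_mem hf))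
    have h1 : ((g, f⁻¹) : _ × _) ∈ pbGrp ι m j := by
      show IsPb g (f⁻¹)⁻¹
      rwa [inv_inv]
    have h2 := hx ⟨(g, f⁻¹), h1⟩ (Φ.inv_mem hf)
    have h3 : g x = x := h2
    rw [← hg.form, h3]

end Pool.Agent.K3h69.KQ
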